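import Pool.Agent.R678.AC.K
import Pool.Agent.R678.MD.C

/-!
Abelian MDS codes of length `q + 2` for all dimensions `2 ≤ k ≤ q`.
-/

set_option autoImplicit false
set_option linter.unusedSectionVars false

namespace Pool.Agent.R678.AC

open Module Finset

variable {F : Type} [Field F] [Fintype F] {A : Type} [AddCommGroup A] [Fintype A] [DecidableEq A]
variable {C : Submodule F (A → F)} {k : ℕ}

lemma not_two (h : Mds C 2) (hn : Fintype.card A = Fintype.card F + 2) : False := by
  have e : Fin (Fintype.card F + 2) ≃ A := (Fintype.equivFinOfCardEq hn).symm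
  have b : Basis (Fin 2) F C := Module.finBasisOfFinrankEq F C h.dim
  have hv := arc_of h b e
  exact Pool.Agent.R678.MD.noDet_two (fun i => (fun l => (b l : A → F) (e i) : Fin 2 → F))
    (Pool.Agent.W865.detArc_of_linearIndependent
      (v := fun i => (fun l => (b l : A → F) (e i) : Fin 2 → F)) hv)

lemma not_three (hodd : Odd (Fintype.card F)) (h : Mds C 3)
    (hn : Fintype.card A = Fintype.card F + 2) : False := by
  have e : Fin (Fintype.card F + 2) ≃ A := (Fintype.equivFinOfCardEq hn).symm
  have b : Basis (Fin 3) F C := Module.finBasisOfFinrankEq F C h.dim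
  have hv := arc_of h b e
  exact Pool.Agent.R678.MD.noDet_three hodd (fun i => (fun l => (b l : A → F) (e i) : Fin 3 → F))
    (Pool.Agent.W865.detArc_of_linearIndependent
      (v := fun i => (fun l => (b l : A → F) (e i) : Fin 3 → F)) hv)

lemma not_small (hodd : Odd (Fintype.card F)) (h : Mds C k)
    (hn : Fintype.card A = Fintype.card F + 2) (h2 : 2 ≤ k) : 4 ≤ k := by
  by_contra hcon
  have hk : k = 2 ∨ k = 3 := by omega
  rcases hk with rfl | rfl
  · exact not_two h hn
  · exact not_three hodd h hn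

lemma not_four (p : ℕ) [CharP F p] (hp : 3 ≤ p) (hq7 : 7 ≤ Fintype.card F) (h : Mds C 4)
    (hn : Fintype.card A = Fintype.card F + 2) : False := by
  have e : Fin (Fintype.card F + 2) ≃ A := (Fintype.equivFinOfCardEq hn).symm
  have b : Basis (Fin 4) F C := Module.finBasisOfFinrankEq F C h.dim
  have hv := arc_of h b e
  have har : (2 * p - 3) * 4 ≤ (p - 2) * (Fintype.card F + 6) + 2 := by
    have h1 : (p - 2) * 13 ≤ (p - 2) * (Fintype.card F + 6) := Nat.mul_le_mul_left _ (by omega)
    omega
  have := Pool.Agent.W865.range_theoremT F p hp 4 (le_refl _) (by omega) (Or.inl har)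
    (Fintype.card F + 2) (fun i => (fun l => (b l : A → F) (e i) : Fin 4 → F)) hv
  omega

/-- all dimensions `2 ≤ k ≤ q` -/
theorem all_dims (p : ℕ) [Fact p.Prime] [CharP F p] (hC : TInv C) (h : Mds C k)
    (hn : Fintype.card A = Fintype.card F + 2) (h2 : 2 ≤ k) (hkq : k ≤ Fintype.card F)
    (hq : Fintype.card F ≠ 2) :
    Odd (Fintype.card F) ∧ 4 ≤ k ∧ k + 3 ≤ Fintype.card F ∧ Fintype.card F % 3 ≠ 1 ∧
      (∀ l l' : ℕ, l.Prime → l'.Prime → l ∣ Fintype.card F + 2 → l' ∣ Fintype.card F + 2 →
        orderOf (-2 : ZMod l) = orderOf (-2 : ZMod l')) ∧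
      (∀ l : ℕ, l.Prime → l ∣ Fintype.card F + 2 →
        orderOf (-2 : ZMod l) ∣ k ∨ orderOf (-2 : ZMod l) ∣ k - 1) := by
  classical
  have hodd : Odd (Fintype.card F) := by
    by_contra hev
    rw [Nat.not_odd_iff_even] at hev
    obtain ⟨m, hp1, hm⟩ := FiniteField.card F p
    have hp2 : p = 2 := by
      have : 2 ∣ p ^ (m : ℕ) := by rw [← hm]; exact hev.two_dvd
      exact ((Nat.prime_dvd_prime_iff_eq Nat.prime_two hp1).1
        (Nat.prime_two.dvd_of_dvd_pow this)).symm
    subst hp2
    have h4 : Fintype.card F % 4 = 0 := by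
      have : 2 ≤ (m : ℕ) := by
        by_contra hm2
        have : (m : ℕ) = 1 := by have := m.pos; omega
        rw [this] at hm; omega
      have h5 : 2 ^ 2 ∣ 2 ^ (m : ℕ) := pow_dvd_pow 2 this
      rw [← hm] at h5
      omega
    exact no_even hC h (by omega) h2 (by omega)
  have hk4 := not_small hodd h hn h2
  have hP := mds_perp h (by omega)
  have hk4' := not_small hodd hP hn (by omega)
  obtain ⟨m, hp1, hm⟩ := FiniteField.card F p
  have hp3 : 3 ≤ p := by
    have h2 : p ≠ 2 := by
      rintro rfl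
      rw [hm] at hodd
      exact (Nat.not_odd_iff_even.2 ((even_two).pow_of_ne_zero m.pos.ne')) hodd
    have := hp1.two_le
    omega
  have hkq' : k + 3 ≤ Fintype.card F := by
    by_contra hcon
    have hkeq : Fintype.card A - k = 4 := by omega
    rw [hkeq] at hP
    refine not_four p hp3 ?_ hP hn
    obtain ⟨s, hs⟩ := hodd
    omega
  obtain ⟨-, h3⟩ := odd_mod_three p hC h hn hk4 hkq'
  exact ⟨hodd, hk4, hkq', h3,
    fun l l' hl hl' hd hd' => orders p hC h hn hk4 hkq' l l' hl hl' hd hd',
    fun l hl hd => dim_orders p hC h hn hk4 hkq' l hl hd⟩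

end Pool.Agent.R678.AC
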